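import Pool.Agent.Helper50.AY.StB

set_option autoImplicit false

namespace Pool.Agent.Helper53.AY

open Pool.Agent.Helper50.AY Pool.Agent.Helper43.GD Polynomial

theorem hLBQ : StLBQ := by
  intro p n hp h5 L _ x hch h2 hpp hgn
  set q : ℕ := p ^ (p ^ n) with hq
  have hq1 : 1 < q := by
    have : 0 < p ^ n := pow_pos hp.pos n
    exact Nat.one_lt_pow this.ne' hp.one_lt
  rcases subsingleton_or_nontrivial L with hs | hnt
  · exact ⟨Finite.of_subsingleton, hp, h5, hch, Subsingleton.elim _ _, hgn⟩
  have : Fact p.Prime := ⟨hp⟩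
  have hcp : CharP L p := (CharP.charP_iff_prime_eq_zero hp).mpr hch
  have : ExpChar L p := ExpChar.prime hp
  refine ⟨?_, hp, h5, hch, ?_, hgn⟩
  · -- finiteness
    let ev : (ZMod p)[X] →+* L := Polynomial.eval₂RingHom (ZMod.castHom (dvd_refl p) L) (x : L)
    have evX : ev X = (x : L) := by
      show Polynomial.eval₂ _ _ X = _
      rw [Polynomial.eval₂_X]
    have hsurj : Function.Surjective ev := by
      intro y
      have h := hgn (ev : (ZMod p)[X] →+ L).range ⟨1, map_one ev⟩ (by
        rintro z ⟨f, rfl⟩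
        exact ⟨X * f, by
          show ev (X * f) = _
          rw [map_mul, evX]; rfl⟩) y
      obtain ⟨f, hf⟩ := h
      exact ⟨f, hf⟩
    let g : (ZMod p)[X] := X ^ (q ^ 2) - (X + 1)
    have hdeg : (X + 1 : (ZMod p)[X]).degree < ((q ^ 2 : ℕ) : WithBot ℕ) := by
      have h1 : (X + 1 : (ZMod p)[X]).degree = 1 := by
        have := Polynomial.degree_X_add_C (1 : ZMod p)
        simpa using this
      rw [h1]
      have : 1 < q ^ 2 := Nat.one_lt_pow (by norm_num) hq1
      exact_mod_cast this
    have hmon : g.Monic := Polynomial.monic_X_pow_sub hdeg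
    have hgd : g.degree = ((q ^ 2 : ℕ) : WithBot ℕ) := by
      have h3 : g.degree = (X ^ (q ^ 2) : (ZMod p)[X]).degree :=
        Polynomial.degree_sub_eq_left_of_degree_lt (by rw [Polynomial.degree_X_pow]; exact hdeg)
      rw [h3, Polynomial.degree_X_pow]
    have hg0 : ev g = 0 := by
      show ev (X ^ (q ^ 2) - (X + 1)) = 0
      rw [map_sub, map_pow, map_add, map_one, evX, h2, sub_self]
    have : Finite (Polynomial.degreeLT (ZMod p) (q ^ 2)) :=
      Finite.of_equiv _ (Polynomial.degreeLTEquiv (ZMod p) (q ^ 2)).symm.toEquiv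
    refine Finite.of_surjective (fun f : Polynomial.degreeLT (ZMod p) (q ^ 2) => ev f.1) ?_
    intro y
    obtain ⟨f, rfl⟩ := hsurj y
    refine ⟨⟨f %ₘ g, ?_⟩, ?_⟩
    · rw [Polynomial.mem_degreeLT]
      have h3 := Polynomial.degree_modByMonic_lt f hmon
      rw [hgd] at h3
      exact h3
    · show ev (f %ₘ g) = ev f
      have h3 := Polynomial.modByMonic_add_div f g
      calc ev (f %ₘ g) = ev (f %ₘ g) + ev g * ev (f /ₘ g) := by rw [hg0]; ring
        _ = ev (f %ₘ g + g * (f /ₘ g)) := by rw [map_add, map_mul]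
        _ = ev f := by rw [h3]
  · have hadd : ∀ (i : ℕ) (y z : L), (y + z) ^ (q ^ i) = y ^ (q ^ i) + z ^ (q ^ i) := by
      intro i y z
      have : q ^ i = p ^ (p ^ n * i) := by rw [hq, ← pow_mul]
      rw [this]
      exact add_pow_expChar_pow y z p _
    have hind : ∀ j : ℕ, (x : L) ^ (q ^ (2 * j)) = (x : L) + (j : L) := by
      intro j
      induction j with
      | zero => simp
      | succ j ih =>
          have e1 : q ^ (2 * (j + 1)) = q ^ 2 * q ^ (2 * j) := by rw [← pow_add]; congr 1; ring
          rw [e1, pow_mul, h2, hadd, one_pow, ih]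
          push_cast
          ring
    obtain ⟨h, hh⟩ : ∃ h, p = 2 * h + 1 := by
      rcases hp.eq_two_or_odd' with h | h
      · omega
      · exact h
    have e2 : (x : L) ^ q = (x : L) + ((h + 1 : ℕ) : L) := by
      rw [← hind (h + 1)]
      have e3 : q ^ (2 * (h + 1)) = q ^ p * q := by
        rw [← pow_succ]; congr 1; omega
      rw [e3, pow_mul, hpp]
    rw [e2]
    have e4 : ((2 * (h + 1) : ℕ) : L) = 1 := by
      have : 2 * (h + 1) = p + 1 := by omega
      rw [this]; push_cast; rw [hch]; ring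
    push_cast at e4 ⊢
    linear_combination e4

end Pool.Agent.Helper53.AY
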